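import Mathlib
import Pool.Agent.H.MP_d39bc3_gt.Sym
import Pool.Agent.H.MP_d39bc3_gt.Dom

open MeasureTheory Set Module
open scoped InnerProductSpace ContDiff

namespace Pool.Agent.Results.MP_d39bc3_gt.No

def SmoothBoundary (Ω : Set (EuclideanSpace ℝ (Fin 3))) : Prop :=
  ∀ p ∈ frontier Ω, ∃ (U : Set (EuclideanSpace ℝ (Fin 3))) (ρ : EuclideanSpace ℝ (Fin 3) → ℝ),
    IsOpen U ∧ p ∈ U ∧ ContDiff ℝ ∞ ρ ∧ (∀ q ∈ U, fderiv ℝ ρ q ≠ 0) ∧
      Ω ∩ U = {q ∈ U | ρ q < 0} ∧ frontier Ω ∩ U = {q ∈ U | ρ q = 0}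

def sect (Ω : Set (EuclideanSpace ℝ (Fin 3))) (M : Submodule ℝ (EuclideanSpace ℝ (Fin 3)))
    (x : EuclideanSpace ℝ (Fin 3)) : Set (EuclideanSpace ℝ (Fin 3)) :=
  {y | y - x ∈ M} ∩ Ω

def SCCP (Ω : Set (EuclideanSpace ℝ (Fin 3))) : Prop :=
  ∀ M : Submodule ℝ (EuclideanSpace ℝ (Fin 3)), finrank ℝ M = 2 →
    (∀ x, Bornology.IsBounded (sect Ω M x)) →
      ∃ p d : EuclideanSpace ℝ (Fin 3), d ≠ 0 ∧
        ∀ x, ({y | y - x ∈ M} ∩ interior Ω).Nonempty →
          0 < μH[2] (sect Ω M x) ∧ μH[2] (sect Ω M x) < ⊤ ∧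
            IntegrableOn (fun y => y) (sect Ω M x) μH[2] ∧
            ∃ t : ℝ, (μH[2] (sect Ω M x)).toReal⁻¹ • ∫ y in sect Ω M x, y ∂μH[2] = p + t • d

open Pool.Agent.H.MP_d39bc3_gt Pool.Agent.H.MP_d39bc3_gt.Dom

theorem exists_normal (M : Submodule ℝ (EuclideanSpace ℝ (Fin 3))) (hM : finrank ℝ M = 2) :
    ∃ a : EuclideanSpace ℝ (Fin 3), a ≠ 0 ∧ ∀ v, v ∈ M ↔ ⟪a, v⟫_ℝ = 0 := by
  have h1 : finrank ℝ Mᗮ = 1 := by
    have := M.finrank_add_finrank_orthogonal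
    rw [hM, finrank_euclideanSpace_fin] at this
    omega
  obtain ⟨a, ha, hw⟩ := finrank_eq_one_iff'.1 h1
  refine ⟨a, fun h => ha (Subtype.ext h), fun v => ⟨fun hv => ?_, fun hv => ?_⟩⟩
  · exact Submodule.inner_left_of_mem_orthogonal hv a.2
  · rw [← M.orthogonal_orthogonal, Submodule.mem_orthogonal]
    intro u hu
    obtain ⟨c, hc⟩ := hw ⟨u, hu⟩
    have : u = c • (a : EuclideanSpace ℝ (Fin 3)) := (congrArg Subtype.val hc).symm
    rw [this, inner_smul_left, hv, mul_zero]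

theorem meas_sect (M : Submodule ℝ (EuclideanSpace ℝ (Fin 3))) (hM : finrank ℝ M = 2)
    (x : EuclideanSpace ℝ (Fin 3)) (hb : Bornology.IsBounded (sect Om M x))
    (hne : (sect Om M x).Nonempty) :
    0 < μH[2] (sect Om M x) ∧ μH[2] (sect Om M x) < ⊤ := by
  let ι : M → EuclideanSpace ℝ (Fin 3) := fun m => x + (m : EuclideanSpace ℝ (Fin 3))
  have hι : Isometry ι := by
    intro m m'
    simp only [ι, edist_add_left]
    rfl
  have him : sect Om M x = ι '' (ι ⁻¹' Om) := by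
    rw [image_preimage_eq_inter_range, inter_comm]
    unfold sect
    congr 1
    ext y
    constructor
    · intro hy
      exact ⟨⟨y - x, hy⟩, by simp [ι]⟩
    · rintro ⟨m, rfl⟩
      simp [ι]
  have hH : Measure.IsAddHaarMeasure (μH[2] : Measure M) := by
    have := isAddHaarMeasure_hausdorffMeasure (E := M)
    rw [hM] at this
    exact_mod_cast this
  rw [him] at hb hne ⊢
  rw [hι.hausdorffMeasure_image (Or.inl (by norm_num))]
  refine ⟨(isOpen_Om.preimage hι.continuous).measure_pos _ hne.of_image, ?_⟩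
  have hb' : Bornology.IsBounded (ι ⁻¹' Om) :=
    (hι.antilipschitz.isBounded_preimage hb).subset (subset_preimage_image _ _)
  exact hb'.measure_lt_top

noncomputable def swA (k : ℝ) : EuclideanSpace ℝ (Fin 3) →ₗ[ℝ] EuclideanSpace ℝ (Fin 3) where
  toFun v := !₂[k * v 1, k⁻¹ * v 0, v 2]
  map_add' u v := by
    ext i
    fin_cases i <;> simp <;> ring
  map_smul' c v := by
    ext i
    fin_cases i <;> simp <;> ring

noncomputable def swB (k : ℝ) : EuclideanSpace ℝ (Fin 3) →ₗ[ℝ] EuclideanSpace ℝ (Fin 3) where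
  toFun v := !₂[v 0, k * v 2, k⁻¹ * v 1]
  map_add' u v := by
    ext i
    fin_cases i <;> simp <;> ring
  map_smul' c v := by
    ext i
    fin_cases i <;> simp <;> ring

theorem swA_inv {k : ℝ} (hk : 0 < k) : Function.Involutive (swA k) := by
  intro v
  ext i
  fin_cases i <;> simp [swA] <;> field_simp

theorem swB_inv {k : ℝ} (hk : 0 < k) : Function.Involutive (swB k) := by
  intro v
  ext i
  fin_cases i <;> simp [swB] <;> field_simp

theorem swA_mem {k : ℝ} (hk : 0 < k) {v : EuclideanSpace ℝ (Fin 3)} (hv : v ∈ Om) :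
    swA k v ∈ Om := by
  obtain ⟨h0, h1, h2, h⟩ := hv
  refine ⟨mul_pos hk h1, mul_pos (inv_pos.2 hk) h0, h2, ?_⟩
  show 1 < k * v 1 * (k⁻¹ * v 0) * v 2
  have : k * v 1 * (k⁻¹ * v 0) * v 2 = v 0 * v 1 * v 2 := by field_simp
  rw [this]; exact h

theorem swB_mem {k : ℝ} (hk : 0 < k) {v : EuclideanSpace ℝ (Fin 3)} (hv : v ∈ Om) :
    swB k v ∈ Om := by
  obtain ⟨h0, h1, h2, h⟩ := hv
  refine ⟨h0, mul_pos hk h2, mul_pos (inv_pos.2 hk) h1, ?_⟩
  show 1 < v 0 * (k * v 2) * (k⁻¹ * v 1)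
  have : v 0 * (k * v 2) * (k⁻¹ * v 1) = v 0 * v 1 * v 2 := by field_simp
  rw [this]; exact h

theorem fixed (a : EuclideanSpace ℝ (Fin 3)) (ha : a ≠ 0)
    (L : EuclideanSpace ℝ (Fin 3) →ₗ[ℝ] EuclideanSpace ℝ (Fin 3)) (hL : Function.Involutive L)
    (hLa : ∀ v, ⟪a, L v⟫_ℝ = ⟪a, v⟫_ℝ) (x₀ : EuclideanSpace ℝ (Fin 3)) (hx : L x₀ = x₀)
    (hm : ∀ v ∈ Om, L v ∈ Om) :
    L (∫ y in {y | ⟪a, y⟫_ℝ = ⟪a, x₀⟫_ℝ} ∩ Om, y ∂μH[2]) =
      ∫ y in {y | ⟪a, y⟫_ℝ = ⟪a, x₀⟫_ℝ} ∩ Om, y ∂μH[2] :=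
  integral_fixed a ha (LinearEquiv.ofInvolutive L hL).toContinuousLinearEquiv hL hLa x₀ hx Om
    isOpen_Om.measurableSet (fun v => ⟨fun h => by
      have := hm _ h
      change L (L v) ∈ Om at this
      rwa [hL v] at this, hm v⟩)

theorem sccp : SCCP Om := by
  intro M hM hb
  obtain ⟨a, ha, hMa⟩ := exists_normal M hM
  have hs : ∀ x, sect Om M x = {y | ⟪a, y⟫_ℝ = ⟪a, x⟫_ℝ} ∩ Om := by
    intro x
    unfold sect
    congr 1
    ext y
    simp only [mem_setOf_eq, hMa, inner_sub_right, sub_eq_zero]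
  have haa : ⟪a, a⟫_ℝ ≠ 0 := inner_self_ne_zero.2 ha
  have hb' : ∀ s, Bornology.IsBounded ({y | ⟪a, y⟫_ℝ = s} ∩ Om) := by
    intro s
    have := hb ((s / ⟪a, a⟫_ℝ) • a)
    rwa [hs, inner_smul_right, div_mul_cancel₀ _ haa] at this
  obtain ⟨s01, s12⟩ := signs a hb'
  have n0 : a 0 ≠ 0 := left_ne_zero_of_mul s01.ne'
  have n1 : a 1 ≠ 0 := left_ne_zero_of_mul s12.ne'
  have n2 : a 2 ≠ 0 := right_ne_zero_of_mul s12.ne'
  have kA : 0 < a 1 / a 0 := by
    have : a 1 / a 0 = a 0 * a 1 / (a 0 * a 0) := by field_simp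
    rw [this]; exact div_pos s01 (mul_self_pos.2 n0)
  have kB : 0 < a 2 / a 1 := by
    have : a 2 / a 1 = a 1 * a 2 / (a 1 * a 1) := by field_simp
    rw [this]; exact div_pos s12 (mul_self_pos.2 n1)
  let d : EuclideanSpace ℝ (Fin 3) := !₂[(a 0)⁻¹, (a 1)⁻¹, (a 2)⁻¹]
  refine ⟨0, d, fun h => ?_, fun x hx => ?_⟩
  · have := congrArg (fun v : EuclideanSpace ℝ (Fin 3) => v 0) h
    simp [d, n0] at this
  rw [isOpen_Om.interior_eq] at hx
  obtain ⟨m0, m1⟩ := meas_sect M hM x (hb x) hx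
  refine ⟨m0, m1, ?_, ?_⟩
  · obtain ⟨C, hC⟩ := (hb x).exists_norm_le
    refine Measure.integrableOn_of_bounded (M := C) m1.ne continuous_id.aestronglyMeasurable ?_
    have hmeas : MeasurableSet (sect Om M x) := by
      rw [hs]
      exact (isClosed_eq (by fun_prop) continuous_const).measurableSet.inter
        isOpen_Om.measurableSet
    exact ae_restrict_of_forall_mem hmeas hC
  have hx0 : ⟪a, x⟫_ℝ = ⟪a, (⟪a, x⟫_ℝ / 3) • d⟫_ℝ := by
    rw [inner_smul_right, inner_eq a d]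
    simp [d, n0, n1, n2]
    ring
  have fA := fixed a ha (swA (a 1 / a 0)) (swA_inv kA)
    (fun v => by simp [inner_eq, swA]; field_simp; ring) ((⟪a, x⟫_ℝ / 3) • d)
    (by ext i; fin_cases i <;> simp [swA, d] <;> field_simp <;> simp) (fun v hv => swA_mem kA hv)
  have fB := fixed a ha (swB (a 2 / a 1)) (swB_inv kB)
    (fun v => by simp [inner_eq, swB]; field_simp; ring) ((⟪a, x⟫_ℝ / 3) • d)
    (by ext i; fin_cases i <;> simp [swB, d] <;> field_simp <;> simp) (fun v hv => swB_mem kB hv)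
  rw [← hx0, ← hs] at fA fB
  set I := ∫ y in sect Om M x, y ∂μH[2] with hI
  have e0 : a 1 / a 0 * I 1 = I 0 := congrArg (fun v : EuclideanSpace ℝ (Fin 3) => v 0) fA
  have e1 : a 2 / a 1 * I 2 = I 1 := congrArg (fun v : EuclideanSpace ℝ (Fin 3) => v 1) fB
  have hId : I = (a 2 * I 2) • d := by
    ext i
    fin_cases i
    · simp [d, ← e0, ← e1]; field_simp
    · simp [d, ← e1]; field_simp
    · simp [d]; field_simp
  refine ⟨(μH[2] (sect Om M x)).toReal⁻¹ * (a 2 * I 2), ?_⟩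
  rw [zero_add, mul_smul, ← hId]

theorem smooth : SmoothBoundary Om := by
  intro p hp
  have hO : IsOpen {q : EuclideanSpace ℝ (Fin 3) | 0 < q 0 ∧ 0 < q 1 ∧ 0 < q 2} := by
    have h0 : IsOpen {p : EuclideanSpace ℝ (Fin 3) | 0 < p 0} := isOpen_lt continuous_const (cont 0)
    have h1 : IsOpen {p : EuclideanSpace ℝ (Fin 3) | 0 < p 1} := isOpen_lt continuous_const (cont 1)
    have h2 : IsOpen {p : EuclideanSpace ℝ (Fin 3) | 0 < p 2} := isOpen_lt continuous_const (cont 2)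
    exact h0.inter (h1.inter h2)
  rw [frontier_Om] at hp ⊢
  refine ⟨_, fun q => 1 - q 0 * q 1 * q 2, hO, ⟨hp.1, hp.2.1, hp.2.2.1⟩, by fun_prop, ?_, ?_, ?_⟩
  · rintro q ⟨h0, h1, h2⟩ h
    have hd : DifferentiableAt ℝ (fun q : EuclideanSpace ℝ (Fin 3) => 1 - q 0 * q 1 * q 2) q := by
      fun_prop
    have hf := hd.hasFDerivAt
    rw [h] at hf
    have hl : HasDerivAt (fun t : ℝ => t • q) q 1 := by
      simpa using (hasDerivAt_id (1 : ℝ)).smul_const q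
    have hf' : HasFDerivAt (fun q : EuclideanSpace ℝ (Fin 3) => 1 - q 0 * q 1 * q 2)
        (0 : EuclideanSpace ℝ (Fin 3) →L[ℝ] ℝ) ((fun t : ℝ => t • q) 1) := by
      simpa using hf
    have hc := hf'.comp_hasDerivAt (1 : ℝ) hl
    have hc2 : HasDerivAt (fun t : ℝ => 1 - t ^ 3 * (q 0 * q 1 * q 2))
        (-(3 * (q 0 * q 1 * q 2))) 1 := by
      simpa using ((hasDerivAt_pow 3 (1 : ℝ)).mul_const (q 0 * q 1 * q 2)).const_sub 1
    have heq : ((fun q : EuclideanSpace ℝ (Fin 3) => 1 - q 0 * q 1 * q 2) ∘ fun t : ℝ => t • q) =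
        fun t : ℝ => 1 - t ^ 3 * (q 0 * q 1 * q 2) := by
      funext t
      simp
      ring
    rw [heq] at hc
    have := hc.unique hc2
    have hpos : 0 < q 0 * q 1 * q 2 := by positivity
    simp only [ContinuousLinearMap.zero_apply] at this
    linarith
  · ext q
    simp only [Om, mem_inter_iff, mem_setOf_eq, sub_neg]
    tauto
  · ext q
    simp only [mem_inter_iff, mem_setOf_eq, sub_eq_zero, eq_comm (a := (1 : ℝ))]
    tauto

theorem no_quadric (B : Matrix (Fin 3) (Fin 3) ℝ) (b : Fin 3 → ℝ) (c : ℝ) (hB : B.IsSymm)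
    (h : ∀ p ∈ frontier Om, ∑ i, ∑ j, B i j * p i * p j + ∑ i, b i * p i + c = 0) :
    B = 0 ∧ b = 0 ∧ c = 0 := by
  have s01 : B 1 0 = B 0 1 := hB.apply 0 1
  have s02 : B 2 0 = B 0 2 := hB.apply 0 2
  have s12 : B 2 1 = B 1 2 := hB.apply 1 2
  have G : ∀ x y z : ℝ, 0 < x → 0 < y → 0 < z → x * y * z = 1 →
      B 0 0 * (x * x) + B 1 1 * (y * y) + B 2 2 * (z * z) + B 0 1 * (2 * x * y) +
        B 0 2 * (2 * x * z) + B 1 2 * (2 * y * z) + b 0 * x + b 1 * y + b 2 * z + c = 0 := by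
    intro x y z hx hy hz hxyz
    have := h !₂[x, y, z] (by rw [frontier_Om]; exact ⟨hx, hy, hz, hxyz⟩)
    simp [Fin.sum_univ_three, s01, s02, s12] at this
    linarith
  have e0 := G (1) (1) (1) (by norm_num) (by norm_num) (by norm_num) (by norm_num)
  have e1 := G (1) (2) (1/2) (by norm_num) (by norm_num) (by norm_num) (by norm_num)
  have e2 := G (1) (1/2) (2) (by norm_num) (by norm_num) (by norm_num) (by norm_num)
  have e3 := G (2) (1) (1/2) (by norm_num) (by norm_num) (by norm_num) (by norm_num)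
  have e4 := G (2) (1/2) (1) (by norm_num) (by norm_num) (by norm_num) (by norm_num)
  have e5 := G (1/2) (1) (2) (by norm_num) (by norm_num) (by norm_num) (by norm_num)
  have e6 := G (1) (4) (1/4) (by norm_num) (by norm_num) (by norm_num) (by norm_num)
  have e7 := G (1) (1/4) (4) (by norm_num) (by norm_num) (by norm_num) (by norm_num)
  have e8 := G (2) (2) (1/4) (by norm_num) (by norm_num) (by norm_num) (by norm_num)
  have e9 := G (4) (1) (1/4) (by norm_num) (by norm_num) (by norm_num) (by norm_num)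
  have b00 : B 0 0 = 0 := by linarith
  have b11 : B 1 1 = 0 := by linarith
  have b22 : B 2 2 = 0 := by linarith
  have b01 : B 0 1 = 0 := by linarith
  have b02 : B 0 2 = 0 := by linarith
  have b12 : B 1 2 = 0 := by linarith
  have c0 : b 0 = 0 := by linarith
  have c1 : b 1 = 0 := by linarith
  have c2 : b 2 = 0 := by linarith
  refine ⟨?_, ?_, by linarith⟩
  · ext i j
    fin_cases i <;> fin_cases j <;> simp [*]
  · ext i
    fin_cases i <;> simp [*]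

theorem result :
    ∃ Ω : Set (EuclideanSpace ℝ (Fin 3)),
      IsOpen Ω ∧ Ω.Nonempty ∧ Convex ℝ Ω ∧ StrictConvex ℝ (closure Ω) ∧ SmoothBoundary Ω ∧
        SCCP Ω ∧
        frontier Ω = {p | 0 < p 0 ∧ 0 < p 1 ∧ 0 < p 2 ∧ p 0 * p 1 * p 2 = 1} ∧
        ∀ (B : Matrix (Fin 3) (Fin 3) ℝ) (b : Fin 3 → ℝ) (c : ℝ), B.IsSymm →
          (∀ p ∈ frontier Ω, ∑ i, ∑ j, B i j * p i * p j + ∑ i, b i * p i + c = 0) →
            B = 0 ∧ b = 0 ∧ c = 0 := by
  refine ⟨Om, isOpen_Om, ⟨!₂[2, 2, 2], ?_⟩, convex_Om, closure_Om ▸ strictConvex_K, smooth, sccp,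
    frontier_Om, no_quadric⟩
  refine ⟨by simp, by simp, by simp, ?_⟩
  show (1 : ℝ) < 2 * 2 * 2
  norm_num

end Pool.Agent.Results.MP_d39bc3_gt.No
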